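import Pool.Agent.Zk1.BIR.Res
import Pool.Agent.Zk1.BIR.Asm2

set_option autoImplicit false

/-!
# MP_7193be_nt: zeros of Hasse-Weil L-functions of any degree: clusters or (beyond) the density hypothesis

Let `X`, `i` be as in the problem, `L(s) = L(i; X, s)`, `D = dim H^i(X)`.  The known bounds for the number of zeros of `L`
with `Re s ≥ i/2 + σ`, `1/2 < σ < 1`, have exponents which grow with `D` (nothing is known for `σ < 1 - c/D`), and there are no
bounds in short intervals.  We show that outside of clusters of zeros the density hypothesis, with the exponent `2(1 - σ)` for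
all `D`, and for `σ > 3/4` much more, is true, in intervals as short as a power of `log(QT)`, uniformly in the conductor `Q`.

More precisely, for every `ε > 0` there are `c > 0`, `B`, `C`, which depend on `ε` and `D` only, such that for
`(log QT)^B ≤ H ≤ T` the number of zeros with `Re ρ ≥ i/2 + σ`, `T < Im ρ ≤ T + H` that have fewer than `c log H` zeros in the
box `Re s ≥ Re ρ - ε`, `|Im s - Im ρ| ≤ 1` is at most `C H^(E k σ + ε)`, `E k σ = 2(1-σ)/(k - (2^k-2)(2-2σ))`, for every `k ≥ 1`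
with `σ ≥ 1 - 2^(-k)`.  `E 1 σ = 2 (1 - σ)` is the density hypothesis, `E 2 σ = (1 - σ)/(2σ - 1)` is smaller for `σ > 3/4`, and
with `k = k(σ) → ∞` the exponent is `o(1 - σ)` for `σ → 1`.  So (c), (d) can fail in `T < Im s ≤ T + H` for more than
`H^(2(1-σ)+ε)` zeros only if these form clusters of `c log H` zeros in boxes of fixed size.

The theorem holds for all functions with an Euler product of degree `D` and weight `i` with an analytic continuation to the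
upper half plane of polynomial growth; Deligne's theorem is only used on average over the primes.  The second part says that
these properties hold without any hypothesis if `H^i(X)` is a sum of parts of `GL_2`-type (given by newforms of any weight
`k ≥ 1`, level and nebentypus; modular curves, elliptic curves, abelian varieties of `GL_2`-type, rigid Calabi-Yau
threefolds, Kuga-Sato varieties; and their twists by Dirichlet characters of conductor prime to the level, with constants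
which do not depend on the twist), and of parts with complex multiplication (Hecke characters of arbitrary number fields:
abelian varieties with complex multiplication, Fermat hypersurfaces).

Idea. (1) Local part. Let `P(s)` be the sum of the terms of `log L` with `p ≤ X = H^a`, and suppose `|P| ≤ X^η` near `ρ`. Then
`f = L e^(-P)` is at most `exp(A log QT + X^η + C) ≤ exp(X^δ)` near `ρ`, and `f'/f` is at most `X^(-1/8)` to the right of
`Re s = i/2 + 1`, where only the primes `p > X` contribute.  By Hadamard's three circles theorem `W f'/f` stays small up to `ρ`,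
`W` the polynomial with the fewer than `c log H` zeros near `ρ`; so the argument principle excludes the zero `ρ`.  So near every
zero that is not in a cluster a sum over the primes `p ≤ H^a`, `a` arbitrarily small, is large.  (2) Global part.  Blocks of such
sums are raised to powers, so that we get large values of Dirichlet polynomials of a length `N` at our disposal, whose
coefficients are bounded in mean square; the inequality of Halasz and Montgomery in the interval `(T, T + H]` with the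
derivative tests up to the `k`-th gives the exponent, whatever `D` is.  The mean square over the coefficients of a newform
comes from Rankin and Selberg, the growth from the functional equation of the twists.

Part of the proof (the kernel bounds by the `k`-th derivative test) is due to helper 69, the L-functions of sums of Hecke
characters of number fields are from helper 3, the newforms of any weight from the starting files `W388`, `R838`.
-/

namespace Pool.Agent.Zk1.BIH.Final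

open UpperHalfPlane MatrixGroups CongruenceSubgroup NumberField Polynomial

/-! ### Functions of Hasse-Weil type -/

/-- `L` is a product `∏_p P_p(p^(-s))⁻¹` of weight `i` and degree at most `D`: `P_p(0) = 1`, `deg P_p ≤ D`, the roots of `P_p`
have absolute value at least `p^(-(i+1)/2)`; and at least `p^(-i/2)` on average: there are `g(p) ≥ 1` such that they have
absolute value at least `p^(-i/2) / g(p)` and `∑_{p ≤ N} g(p)^2 ≤ M N` (by Deligne `g = 1` at the good primes of a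
Hasse-Weil L-function; `P_p = 1` if a prime is omitted).  `L` has a continuation to the upper half plane, and
`|L(s)| ≤ A (Q Im s)^A` for `i/2 + 1/16 ≤ Re s ≤ i/2 + 4`, `Im s ≥ 1`. -/
structure IsHasseWeil (i D : ℕ) (M : ℝ) (P : ℕ → ℂ[X]) (A Q : ℝ) (L : ℂ → ℂ) : Prop where
  constant : ∀ p : ℕ, p.Prime → (P p).coeff 0 = 1
  degree : ∀ p : ℕ, p.Prime → (P p).natDegree ≤ D
  roots : ∀ p : ℕ, p.Prime → ∀ z : ℂ, (P p).eval z = 0 → (p : ℝ) ^ (-(((i : ℝ) + 1) / 2)) ≤ ‖z‖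
  mean : ∃ g : ℕ → ℝ, (∀ p : ℕ, 1 ≤ g p) ∧
    (∀ p : ℕ, p.Prime → ∀ z : ℂ, (P p).eval z = 0 → (p : ℝ) ^ (-((i : ℝ) / 2)) ≤ g p * ‖z‖) ∧
    ∀ N : ℕ, ∑ p ∈ (Finset.range (N + 1)).filter Nat.Prime, g p ^ 2 ≤ M * N
  euler : ∀ s : ℂ, (i : ℝ) / 2 + 1 < s.re →
    HasProd (fun p : Nat.Primes => ((P p).eval (((p : ℕ) : ℂ) ^ (-s)))⁻¹) (L s)
  analytic : ∀ s : ℂ, 0 < s.im → AnalyticAt ℂ L s
  growth : ∀ s : ℂ, (i : ℝ) / 2 + 1 / 16 ≤ s.re → s.re ≤ (i : ℝ) / 2 + 4 → 1 ≤ s.im →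
    ‖L s‖ ≤ A * (Q * s.im) ^ A

/-! ### Newforms -/

/-- The `n`-th Fourier coefficient `a(n)` of `f(τ) = ∑ a(n) e^(2πinτ)`. -/
noncomputable def a {N : ℕ} {k : ℤ} (f : CuspForm (Gamma1 N : Subgroup (GL (Fin 2) ℝ)) k) (n : ℕ) :
    ℂ := (qExpansion 1 f).coeff n

/-- `f` is a newform of weight `k`, level `N`, nebentypus `ψ`; the properties that are used:
`f(γτ) = ψ(d) (cτ+d)^k f(τ)` for `γ = (a b; c d)` in `Γ₀(N)`, `a(1) = 1`, the Hecke relations
`a(mn) = a(m) a(n)` for coprime `m`, `n` and `a(p^(j+2)) = a(p) a(p^(j+1)) - ψ(p) p^(k-1) a(p^j)`,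
`conj a(n) = conj ψ(n) a(n)` for `n` prime to `N`, and the Fricke involution maps `f` to a multiple
of the form with the conjugate coefficients,
`f(-1/(Nτ)) = η (√N τ/i)^k conj (f(-conj τ))` with `|η| = 1`. -/
structure IsNewform (N : ℕ) (k : ℤ) (ψ : DirichletCharacter ℂ N)
    (f : CuspForm (Gamma1 N : Subgroup (GL (Fin 2) ℝ)) k) : Prop where
  neb : ∀ γ : SL(2, ℤ), γ ∈ Gamma0 N → ∀ τ : ℍ,
    f (γ • τ) = ψ ((γ 1 1 : ℤ) : ZMod N) * denom γ τ ^ k * f τ
  one : a f 1 = 1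
  mul : ∀ m n : ℕ, Nat.Coprime m n → a f (m * n) = a f m * a f n
  pow : ∀ p j : ℕ, p.Prime → a f (p ^ (j + 2)) = a f p * a f (p ^ (j + 1)) -
    ψ (p : ZMod N) * (p : ℂ) ^ (k - 1) * a f (p ^ j)
  conj : ∀ n : ℕ, Nat.Coprime n N → (starRingEnd ℂ) (a f n) =
    (starRingEnd ℂ) (ψ (n : ZMod N)) * a f n
  fricke : ∃ η : ℂ, ‖η‖ = 1 ∧ ∀ τ τ' τc : ℍ, (τ' : ℂ) * ((N : ℂ) * (τ : ℂ)) = -1 →
    (τc : ℂ) = -(starRingEnd ℂ) (τ : ℂ) →
    f τ' = η * (((Real.sqrt N : ℝ) : ℂ) * (τ : ℂ) / Complex.I) ^ k * (starRingEnd ℂ) (f τc)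

/-- A part `V(f) (-r)` of a cohomology group of degree `i`: a newform `f` of level `N`, weight `k` and nebentypus `ψ`,
and a Tate twist `(-r)` with `k + 2r = i + 1`. -/
structure Part (i : ℕ) where
  N : ℕ
  k : ℕ
  r : ℕ
  ψ : DirichletCharacter ℂ N
  f : CuspForm (Gamma1 N : Subgroup (GL (Fin 2) ℝ)) (k : ℤ)
  N_pos : 1 ≤ N
  k_pos : 1 ≤ k
  newform : IsNewform N k ψ f
  weight : k + 2 * r = i + 1

/-- The polynomial `1 - χ(p) a(p) p^r T + χ(p)^2 ψ(p) p^i T^2` of `V(f ⊗ χ) (-r)` at `p`. -/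
noncomputable def newformPolynomial {i : ℕ} (π : Part i) {q : ℕ} (χ : DirichletCharacter ℂ q) (p : ℕ) : ℂ[X] :=
  1 - C (χ (p : ZMod q) * a π.f p * (p : ℂ) ^ π.r) * X + C (χ (p : ZMod q) ^ 2 * π.ψ (p : ZMod π.N) * (p : ℂ) ^ i) * X ^ 2

/-! ### Hecke characters -/

section

variable {K : Type} [Field K] [NumberField K]

/-- `x` is totally positive -/
def TotPos (x : 𝓞 K) : Prop := ∀ τ : K →+* ℝ, 0 < τ (x : K)

/-- the archimedean part `∏_φ (φ(x)/|φ(x)|)^(n_φ)` -/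
noncomputable def phase (n : (K →+* ℂ) → ℕ) (x : K) : ℂ :=
  ∏ φ : K →+* ℂ, (φ x / (‖φ x‖ : ℂ)) ^ n φ

/-- `n` is an infinity type: one of the exponents of two conjugate embeddings is zero.  (The phases of `x` at
conjugate embeddings are inverse to each other, so this is no restriction.)  `n = 0` is allowed. -/
def IsType (n : (K →+* ℂ) → ℕ) : Prop :=
  ∀ φ : K →+* ℂ, n φ = 0 ∨ n (ComplexEmbedding.conjugate φ) = 0

/-- `ψ` is a primitive (unitary) Hecke character of finite conductor `𝔣` and infinity type `n` (with arbitrary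
signs at the real places) -/
structure IsHecke (𝔣 : Ideal (𝓞 K)) (n : (K →+* ℂ) → ℕ) (ψ : Ideal (𝓞 K) →*₀ ℂ) : Prop where
  ne_bot : 𝔣 ≠ ⊥
  supp : ∀ 𝔞 : Ideal (𝓞 K), 𝔞 ≠ ⊥ → (ψ 𝔞 ≠ 0 ↔ IsCoprime 𝔞 𝔣)
  ray : ∀ x : 𝓞 K, x ≠ 0 → x - 1 ∈ 𝔣 → TotPos x → ψ (Ideal.span {x}) = phase n (x : K)
  prim : ∀ 𝔤 : Ideal (𝓞 K), 𝔤 ∣ 𝔣 → 𝔤 ≠ 𝔣 → ∃ x : 𝓞 K, x - 1 ∈ 𝔤 ∧ TotPos x ∧
    IsCoprime (Ideal.span {x}) 𝔣 ∧ ψ (Ideal.span {x}) ≠ phase n (x : K)

/-- The polynomial of the Frobenius at `p` on the representation of degree `[K : ℚ]` which is induced from the Hecke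
character `ψ N^(i/2)` of weight `i`: the product over the prime ideals `𝔭` above `p` of
`1 - ψ(𝔭) N(𝔭)^(i/2) T^f`, where `N(𝔭) = p^f`. -/
noncomputable def inducedPolynomial (i : ℕ) (ψ : Ideal (𝓞 K) →*₀ ℂ) (p : ℕ) : ℂ[X] :=
  ∏ᶠ 𝔭 ∈ {𝔭 : Ideal (𝓞 K) | 𝔭.IsPrime ∧ (p : 𝓞 K) ∈ 𝔭},
    (1 - C (ψ 𝔭 * ((Ideal.absNorm 𝔭 : ℕ) : ℂ) ^ ((i : ℂ) / 2)) * X ^ (𝔭.inertiaDeg ℤ))

end

/-! ### Zeros -/

/-- The number of the points of `S`, counted with their multiplicities as zeros of `L`. -/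
noncomputable def num (L : ℂ → ℂ) (S : Set ℂ) : ℕ := ∑ᶠ s ∈ S, analyticOrderNatAt L s

/-- The zeros of `L` in the box `Re s ≥ Re ρ - ε`, `|Im s - Im ρ| ≤ 1` near `ρ`. -/
def near (L : ℂ → ℂ) (ε : ℝ) (ρ : ℂ) : Set ℂ :=
  {s : ℂ | L s = 0 ∧ ρ.re - ε ≤ s.re ∧ |s.im - ρ.im| ≤ 1}

/-- The zeros of `L` with `Re ρ ≥ i/2 + σ`, `T < Im ρ ≤ T + H` near which there are fewer than `c log H` zeros. -/
def sparse (i : ℕ) (L : ℂ → ℂ) (c ε σ T H : ℝ) : Set ℂ :=
  {ρ : ℂ | L ρ = 0 ∧ (i : ℝ) / 2 + σ ≤ ρ.re ∧ T < ρ.im ∧ ρ.im ≤ T + H ∧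
    (num L (near L ε ρ) : ℝ) < c * Real.log H}

/-- The exponent; `E 1 σ = 2 (1 - σ)` and `E 2 σ = (1 - σ) / (2 σ - 1)`. -/
noncomputable def E (k : ℕ) (σ : ℝ) : ℝ := 2 * (1 - σ) / (k - (2 ^ k - 2) * (2 - 2 * σ))

/-- **Main theorem.** (1) For all `ε > 0`, `D`, `M ≥ 1`, `A ≥ 1` there are `c, B, C > 0` such that for all `i`, all `Q ≥ 1` and
all `L` of Hasse-Weil type of degree at most `D` and weight `i`, with the constants `M`, `A`, `Q`: if `k ≥ 1`,
`1 - 2^(-k) ≤ σ ≤ 1`, `T ≥ 3`, `(log QT)^B ≤ H ≤ T`, then the number of zeros with `Re ρ ≥ i/2 + σ`, `T < Im ρ ≤ T + H`, near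
which there are fewer than `c log H` zeros, is at most `C H^(E k σ + ε)`.

(2) Let `π_1, …, π_n` be newforms with Tate twists of weight `i`, `K_1, …, K_m` number fields with infinity types
`n_1, …, n_m`, and `t ≥ 0`.  There are `M`, `A` such that for all `N ≥ 1`, all primitive Dirichlet characters `χ_j` modulo `q_j`,
`q_j` prime to the level of `π_j`, and all primitive Hecke characters `ψ_j` of `K_j` of type `n_j` and conductor `𝔣_j ≠ (1)`, the
L-function over the primes `p ∤ N` with the polynomials `∏_j newformPolynomial π_j χ_j p` times `(1 - p^(i/2) T)^t` times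
`∏_j inducedPolynomial i ψ_j p` has these properties, with `D = 2 n + t + ∑_j [K_j : ℚ]` and `Q = N ∏_j q_j ∏_j N(𝔣_j)`; for
`t = 0` it is entire. -/
theorem result :
    (∀ ε : ℝ, 0 < ε → ∀ (D : ℕ) (M A : ℝ), 1 ≤ M → 1 ≤ A → ∃ c B C : ℝ, 0 < c ∧ 0 < B ∧ 0 < C ∧
      ∀ (i : ℕ) (P : ℕ → ℂ[X]) (Q : ℝ) (L : ℂ → ℂ), 1 ≤ Q → IsHasseWeil i D M P A Q L →
      (∀ ρ : ℂ, 2 ≤ ρ.im → (near L ε ρ).Finite) ∧
      ∀ k : ℕ, 1 ≤ k → ∀ σ T H : ℝ, 1 - (1 / 2) ^ k ≤ σ → σ ≤ 1 → 3 ≤ T → (Real.log (Q * T)) ^ B ≤ H → H ≤ T →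
        (sparse i L c ε σ T H).Finite ∧ (num L (sparse i L c ε σ T H) : ℝ) ≤ C * H ^ (E k σ + ε)) ∧
    (∀ (i n m : ℕ) (π : Fin n → Part i) (K : Fin m → Type) [∀ j, Field (K j)] [∀ j, NumberField (K j)]
      (ν : ∀ j, (K j →+* ℂ) → ℕ) (t : ℕ), (∀ j, IsType (ν j)) →
      ∃ M A : ℝ, 1 ≤ M ∧ 1 ≤ A ∧
      ∀ (N : ℕ) (q : Fin n → ℕ) (χ : ∀ j, DirichletCharacter ℂ (q j)) (𝔣 : ∀ j, Ideal (𝓞 (K j)))
        (ψ : ∀ j, Ideal (𝓞 (K j)) →*₀ ℂ), N ≠ 0 →
      (∀ j, 1 ≤ q j ∧ Nat.Coprime (q j) (π j).N ∧ (χ j).IsPrimitive) →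
      (∀ j, 𝔣 j ≠ ⊤ ∧ IsHecke (𝔣 j) (ν j) (ψ j)) →
      1 ≤ (N : ℝ) * (∏ j, (q j : ℝ)) * ∏ j, (Ideal.absNorm (𝔣 j) : ℝ) ∧ ∃ L : ℂ → ℂ, (t = 0 → Differentiable ℂ L) ∧
        IsHasseWeil i (2 * n + (t + ∑ j, Module.finrank ℚ (K j))) M
          (fun p => if p ∣ N then 1 else (∏ j, newformPolynomial (π j) (χ j) p) *
            ((1 - C ((p : ℂ) ^ ((i : ℂ) / 2)) * X) ^ t * ∏ j, inducedPolynomial i (ψ j) p))
          A (N * (∏ j, (q j : ℝ)) * ∏ j, (Ideal.absNorm (𝔣 j) : ℝ)) L) := by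
  constructor
  · intro ε hε D M A hM hA
    obtain ⟨c, B, C, hc, hB, hC, h⟩ := Pool.Agent.Zk1.BIR.dens ε hε D M A hM hA
    refine ⟨c, B, C, hc, hB, hC, fun i P Q L hQ hL => ?_⟩
    exact h i P Q L hQ ⟨hL.constant, hL.degree, hL.roots, hL.mean, hL.euler, hL.analytic, hL.growth⟩
  · intro i n m π K _ _ ν t hν
    have h1 : ∀ j, ∃ M A : ℝ, 1 ≤ M ∧ 1 ≤ A ∧
        ∀ (q : ℕ) (χ : DirichletCharacter ℂ q), 1 ≤ q → Nat.Coprime q (π j).N → χ.IsPrimitive →
          ∃ L : ℂ → ℂ, Differentiable ℂ L ∧ Pool.Agent.Zk1.BIR.IsHR i 2 M (newformPolynomial (π j) χ) A q L := by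
      intro j
      have : NeZero (π j).N := ⟨Nat.one_le_iff_ne_zero.1 (π j).N_pos⟩
      have hf := (π j).newform
      obtain ⟨η, hη, hfr⟩ := hf.fricke
      have hf' : W388.IsNewfC (π j).N (π j).k (π j).ψ (π j).f η :=
        ⟨hf.neb, hf.one, hf.mul, hf.pow, hf.conj, hη, hfr⟩
      obtain ⟨M, A, hM, hA, h⟩ := Pool.Agent.Zk1.BIR.newf_HR (π j).k_pos hf'
      exact ⟨M, A, hM, hA, fun q χ h1 h2 h3 => h i (π j).r (π j).weight q χ h1 h2 h3⟩
    obtain ⟨M, A, hM, hA, h2⟩ := Pool.Agent.Zk1.BIR.asm2 h1 m K ν hν t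
    refine ⟨M, A, hM, hA, fun N q χ 𝔣 ψ hN hχ hψ => ?_⟩
    obtain ⟨h3, L, h4, h5⟩ := h2 N q χ 𝔣 ψ hN (fun j => ⟨(hχ j).1, (hχ j).2.1, (hχ j).2.2⟩)
      fun j => ⟨(hψ j).1, ⟨(hψ j).2.ne_bot, (hψ j).2.supp, (hψ j).2.ray, (hψ j).2.prim⟩⟩
    exact ⟨h3, L, h4, ⟨h5.const, h5.degree, h5.roots, h5.mean, h5.euler, h5.analytic, h5.growth⟩⟩

end Pool.Agent.Zk1.BIH.Final
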